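import Pool.Agent.H78.S.Targets

/-!
# Theorem S (MP_9d0bb7_lc), row DIC: the alternative for the kernels
-/

set_option autoImplicit false

open Set Pool.Agent.H77.BC Pool.Agent.H78.S
open scoped Pointwise

namespace Pool.Agent.H4.S

variable {M : Type}

/-- a connected group is not covered by finitely many definable subgroups which do not contain it -/
theorem not_cover (U : RU M) {Γ : Type} [Group Γ] [Cod M Γ] [DG U Γ] (K : Subgroup Γ)
    (hK : Conn U K) {ι : Type} [Finite ι] (s : ι → Subgroup Γ) (hs : ∀ i, U.D (s i : Set Γ))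
    (hn : ∀ i, ¬ K ≤ s i) : ∃ t ∈ K, ∀ i, t ∉ s i := by
  classical
  cases nonempty_fintype ι
  by_contra hcon
  push Not at hcon
  have hcov : ⋃ i ∈ (Finset.univ : Finset ι),
      (1 : K) • (((s i).subgroupOf K : Subgroup K) : Set K) = Set.univ := by
    ext t
    simp only [Finset.mem_univ, iUnion_true, one_smul, mem_iUnion, mem_univ, iff_true]
    obtain ⟨i, hi⟩ := hcon t t.2
    exact ⟨i, hi⟩
  obtain ⟨i, _, hi⟩ := Subgroup.exists_finiteIndex_of_leftCoset_cover hcov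
  have h1 : (s i).relIndex K ≠ 0 := hi.index_ne_zero
  have h2 : (K ⊓ s i).relIndex K ≠ 0 := by
    rw [Subgroup.inf_relIndex_left]
    exact h1
  have hD : U.D ((K ⊓ s i : Subgroup Γ) : Set Γ) := by
    rw [Subgroup.coe_inf]
    exact D_inter hK.1 (hs i)
  have h3 := (l_GRA U K (K ⊓ s i) hK.1 hD inf_le_left).1 h2
  have h4 := hK.2 (K ⊓ s i) inf_le_left hD h3
  exact hn i (inf_eq_left.1 h4)

theorem mem_biInf {Γ ι : Type} [Group Γ] (Z : Set ι) (K : ι → Subgroup Γ) (g : Γ) :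
    g ∈ (⨅ E ∈ Z, K E : Subgroup Γ) ↔ ∀ E ∈ Z, g ∈ K E := by
  simp only [Subgroup.mem_iInf]

/-- the stabiliser of a point in `T` -/
theorem fix_iff (hLNK : T_LNK) (hCTB : T_CTB) (U : RU M) {G S : Type} [Group G] [MulAction G S]
    [Cod M G] [Cod M S] [DG U G] [Ful U S] (hact : DFn U (fun p : G × S => p.1 • p.2))
    (H : Subgroup G) (X : Set S) (T : Subgroup G) (o e : S) (hC : Ctx U H X T o e)
    (hinj : ∀ y ∈ X, ∀ z ∈ X, (∀ E ∈ Lines U H X o e, (y, z) ∈ E) → y = z)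
    (L : ∀ E ∈ Lines U H X o e, LB U H X o e E) (t : G) (ht : t ∈ T) (v : S) (hv : v ∈ X) :
    t • v = v ↔ ∀ E (h : E ∈ Lines U H X o e), (L E h).f v ≠ 0 → t ∈ kap T E := by
  obtain ⟨_, _, _, _, _, _, hTH, _, hHX, _⟩ := hCTB U hact H X T o e hC
  constructor
  · intro htv E hE hfv
    obtain ⟨h1, _, h3, _⟩ := hLNK U hact H X T o e hC E (L E hE)
    rw [h3]
    refine ⟨ht, ?_⟩
    have h4 := (h1 t ht).2 v hv
    rw [htv] at h4
    have h5 : ((L E hE).f (t • e) - 1) * (L E hE).f v = 0 := by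
      rw [sub_mul, one_mul, ← h4, sub_self]
    rcases mul_eq_zero.1 h5 with h6 | h6
    · exact sub_eq_zero.1 h6
    · exact absurd h6 hfv
  · intro h
    apply hinj _ (hHX t (hTH ht) v hv) _ hv
    intro E hE
    obtain ⟨h1, _, h3, _, _, _, _, h8, _⟩ := hLNK U hact H X T o e hC E (L E hE)
    rw [h8]
    refine ⟨hHX t (hTH ht) v hv, hv, ?_⟩
    rw [(h1 t ht).2 v hv]
    by_cases hfv : (L E hE).f v = 0
    · rw [hfv, mul_zero]
    · have h4 := (h3 t).1 (h E hE hfv)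
      rw [h4.2, one_mul]

/-- the rank of an intersection of kernels -/
theorem rank_inter (hLRK : T_LRK) (U : RU M) {G S : Type} [Group G] [MulAction G S]
    [Cod M G] [Cod M S] [DG U G] [Ful U S] (hact : DFn U (fun p : G × S => p.1 • p.2))
    (H : Subgroup G) (X : Set S) (T : Subgroup G) (o e : S) (hC : Ctx U H X T o e) (n : ℕ)
    (hT : U.R (T : Set G) = n)
    (hk : ∀ E ∈ Lines U H X o e, U.R (kap T E : Set G) + 1 = n)
    (Z : Set (Set (S × S))) (hZ : Z ⊆ Lines U H X o e) (hZf : Z.Finite) :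
    U.R ((T ⊓ ⨅ E ∈ Z, kap T E : Subgroup G) : Set G) + Z.ncard = n := by
  classical
  haveI : Fintype Z := hZf.fintype
  have hcard : Fintype.card Z = Z.ncard := by
    rw [← Nat.card_eq_fintype_card]
    rfl
  obtain ⟨e', -⟩ : ∃ e' : Z ≃ Fin (Fintype.card Z), True := ⟨Fintype.equivFin Z, trivial⟩
  obtain ⟨_, h2⟩ := hLRK U hact H X T o e hC (Fintype.card Z)
    (fun j => ((e'.symm j : Z) : Set (S × S)))
    (fun a b hab => e'.symm.injective (Subtype.ext hab)) (fun j => hZ (e'.symm j).2)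
  have h3 : ∑ j : Fin (Fintype.card Z), (U.R (T : Set G) -
      U.R (kap T ((e'.symm j : Z) : Set (S × S)) : Set G)) = Fintype.card Z := by
    have h4 : ∀ j : Fin (Fintype.card Z), (U.R (T : Set G) -
        U.R (kap T ((e'.symm j : Z) : Set (S × S)) : Set G)) = 1 := by
      intro j
      have h5 := hk _ (hZ (e'.symm j).2)
      omega
    rw [Finset.sum_congr rfl fun j _ => h4 j, Finset.sum_const, Finset.card_univ,
      Fintype.card_fin, smul_eq_mul, mul_one]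
  have h6 : (T ⊓ ⨅ E ∈ Z, kap T E : Subgroup G) =
      T ⊓ ⨅ j : Fin (Fintype.card Z), kap T ((e'.symm j : Z) : Set (S × S)) := by
    ext g
    rw [Subgroup.mem_inf, Subgroup.mem_inf, mem_biInf, Subgroup.mem_iInf]
    constructor
    · rintro ⟨h7, h8⟩
      exact ⟨h7, fun j => h8 _ (e'.symm j).2⟩
    · rintro ⟨h7, h8⟩
      refine ⟨h7, fun E hE => ?_⟩
      have h9 := h8 (e' ⟨E, hE⟩)
      rw [Equiv.symm_apply_apply] at h9
      exact h9
  rw [h6, ← hcard, ← hT]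
  rw [h3] at h2
  exact h2

theorem pf_DIC (hCOO : T_COO) (hTEK : T_TEK) (hLCJ : T_LCJ) (hCJH : T_CJH) (hHIC : T_HIC)
    (hLNK : T_LNK) (hCTB : T_CTB) (hLRK : T_LRK) (hIRG : T_IRG) (hBGA : T_BGA) (hSYM : T_SYM) :
    T_DIC := by
  classical
  intro M U G S _ _ _ _ n x hF hN ω hω i j hi hj hij E hE
  have := hF.dg
  have := hF.ful
  obtain ⟨hC, _, _⟩ := hHIC U x hF i hi
  obtain ⟨hoX, _, _, _, hTD, _, hTH, _, hHX, _⟩ := hCTB U hF.act _ _ _ _ _ hC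
  -- a choice of lines
  obtain ⟨L, -⟩ : ∃ L : ∀ F ∈ LL U G x i, LF U G x i F, True :=
    ⟨fun F hF => (show F ∈ Lines U _ _ _ _ from hF).some, trivial⟩
  obtain ⟨_, _, _, hX0⟩ := hCOO U x hF hN i hi L
  obtain ⟨hTE1, hTE2, hTE3, hTE4⟩ := hTEK U x hF hN i hi
  -- the two elements
  obtain ⟨w, hw⟩ : ∃ w, w = ω (Equiv.swap i j) := ⟨_, rfl⟩
  obtain ⟨w0, hw0⟩ : ∃ w0, w0 = ω (Equiv.swap 0 i) := ⟨_, rfl⟩
  have hww : w * w = 1 := by
    rw [hw, ← map_mul, Equiv.swap_mul_self, map_one]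
  have hwinv : w⁻¹ = w := inv_eq_of_mul_eq_one_left hww
  have hpm : Pm x w (Equiv.swap i j) := by
    rw [hw]
    exact hω.pm _
  have hpm0 : Pm x w0 (Equiv.swap 0 i) := by
    rw [hw0]
    exact hω.pm _
  have hs0 : Equiv.swap i j 0 = 0 := Equiv.swap_apply_of_ne_of_ne (Ne.symm hi) (Ne.symm hj)
  have hbraid : w * w0 * w = w0 * w * w0 := by
    rw [hw, hw0, ← map_mul, ← map_mul, ← map_mul, ← map_mul]
    congr 1
    rw [Equiv.swap_mul_swap_mul_swap (Ne.symm hi) (Ne.symm hj), Equiv.swap_comm 0 i,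
      Equiv.swap_comm i j, Equiv.swap_mul_swap_mul_swap (Ne.symm hij) hj, Equiv.swap_comm]
  have hw0H : w0 ∈ HH U G x 0 i := by
    rw [hw0]
    exact hω.mem 0 i (Ne.symm hi)
  obtain ⟨_, hcT, _, hcX⟩ := hCJH U x hF w (Equiv.swap i j) hpm
  have hwT : cj w⁻¹ (TT U G x 0) = TT U G x 0 := by
    rw [hcT 0, hs0]
  have hwX := hcX hs0
  have hwx0 : w • x 0 = x 0 := by
    rw [hpm 0, hs0]
  have hw0i : w0 • x i = x 0 := by
    rw [hpm0 i, Equiv.swap_apply_right]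
  have hw00 : w0 • x 0 = x i := by
    rw [hpm0 0, Equiv.swap_apply_left]
  have hwTm : ∀ g, w⁻¹ * g * w⁻¹⁻¹ ∈ TT U G x 0 ↔ g ∈ TT U G x 0 := by
    intro g
    rw [← mem_cj, hwT]
  rw [← hw]
  by_cases h1 : ∃ E' ∈ LL U G x i, kap (TT U G x 0) E' = cj w⁻¹ (kap (TT U G x 0) E)
  · exact Or.inl h1
  right
  push Not at h1
  have hkE : Conn U (kap (TT U G x 0) E) := (hTE1 E hE).2.2.2.1
  have hCJ := l_CNJ U w⁻¹ (kap (TT U G x 0) E) hkE.1
  have hkconn : Conn U (cj w⁻¹ (kap (TT U G x 0) E)) := hCJ.2.2 hkE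
  have hkrk : U.R ((cj w⁻¹ (kap (TT U G x 0) E) : Subgroup G) : Set G) + 1 = n := by
    rw [hCJ.2.1]
    exact hN.rkE i hi E hE
  -- the element `t`
  have : Finite {F // F ∈ LL U G x i} := (hN.fin i hi).to_subtype
  have : Finite {F // F ∈ LL U G x i ∧ F ≠ E} :=
    ((hN.fin i hi).subset (fun F (h : F ∈ LL U G x i ∧ F ≠ E) => h.1)).to_subtype
  obtain ⟨t, ht, hts⟩ := not_cover U (cj w⁻¹ (kap (TT U G x 0) E)) hkconn
    (ι := {F // F ∈ LL U G x i} ⊕ {F // F ∈ LL U G x i ∧ F ≠ E})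
    (Sum.elim (fun F => kap (TT U G x 0) F.1) (fun F => cj w⁻¹ (kap (TT U G x 0) F.1)))
    (by
      rintro (F | F)
      · exact (hTE1 F.1 F.2).2.2.2.1.1
      · exact (l_CNJ U w⁻¹ _ (hTE1 F.1 F.2.1).2.2.2.1.1).1)
    (by
      rintro (F | F) hle
      · have h2 := hN.rkE i hi F.1 F.2
        have h3 := (hTE1 F.1 F.2).2.2.2.1.2 _ hle hkconn.1 (by omega)
        exact h1 F.1 F.2 h3.symm
      · have hle' : kap (TT U G x 0) E ≤ kap (TT U G x 0) F.1 := by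
          intro g hg
          have h4 : w * g * w⁻¹ ∈ cj w⁻¹ (kap (TT U G x 0) E) := by
            rw [mem_cj]
            have h5 : w⁻¹ * (w * g * w⁻¹) * w⁻¹⁻¹ = g := by group
            rw [h5]
            exact hg
          have h6 := hle h4
          simp only [Sum.elim_inr] at h6
          rw [mem_cj] at h6
          have h5 : w⁻¹ * (w * g * w⁻¹) * w⁻¹⁻¹ = g := by group
          rw [h5] at h6
          exact h6
        have h2 := hN.rkE i hi F.1 F.2.1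
        have h2' := hN.rkE i hi E hE
        have h3 := (hTE1 F.1 F.2.1).2.2.2.1.2 _ hle' hkE.1 (by omega)
        exact F.2.2 (hTE4 E hE F.1 F.2.1 h3).symm)
  have htE : w⁻¹ * t * w⁻¹⁻¹ ∈ kap (TT U G x 0) E := mem_cj.1 ht
  have htT : t ∈ TT U G x 0 := (hwTm t).1 (inf_le_left (a := TT U G x 0) htE)
  have htF : ∀ F ∈ LL U G x i, t ∉ kap (TT U G x 0) F := fun F hF' => hts (Sum.inl ⟨F, hF'⟩)
  have htF' : ∀ F ∈ LL U G x i, F ≠ E → w⁻¹ * t * w⁻¹⁻¹ ∉ kap (TT U G x 0) F := by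
    intro F hF' hFE h2
    exact hts (Sum.inr ⟨F, hF', hFE⟩) (mem_cj.2 h2)
  obtain ⟨s, hs⟩ : ∃ s, s = w⁻¹ * t * w⁻¹⁻¹ := ⟨_, rfl⟩
  rw [← hs] at htE
  have hsT : s ∈ TT U G x 0 := inf_le_left (a := TT U G x 0) htE
  have hsx : s • x 0 = w • (t • x 0) := by
    rw [hs, inv_inv, hwinv, mul_smul, mul_smul, hwx0]
  have hk : ∀ F (h : F ∈ LL U G x i) g, g ∈ kap (TT U G x 0) F ↔
      g ∈ TT U G x 0 ∧ (L F h).f (g • x 0) = 1 :=
    fun F h => (hLNK U hF.act _ _ _ _ _ hC F (L F h)).2.2.1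
  have h1s : ∀ F (h : F ∈ LL U G x i), ∀ y ∈ XX U G x i,
      (L F h).f (w0 • y) = 1 - (L F h).f y :=
    fun F h => (hLNK U hF.act _ _ _ _ _ hC F (L F h)).2.2.2.2.2.2.2.2 w0 hw0H hw0i hw00
  have hOX : ∀ y, y ∈ Orb (TT U G x 0) (x 0) → y ∈ XX U G x i := fun y hy => ((hX0 y).1 hy).1
  have hyX : t • x 0 ∈ XX U G x i := hOX _ ⟨t, htT, rfl⟩
  have hsX : s • x 0 ∈ XX U G x i := hOX _ ⟨s, hsT, rfl⟩
  have hw0y : w0 • (t • x 0) ∈ Orb (TT U G x 0) (x 0) := by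
    refine (hX0 _).2 ⟨hHX _ hw0H _ hyX, fun F hF' => ?_⟩
    rw [h1s F hF' _ hyX, sub_ne_zero]
    intro h2
    exact htF F hF' ((hk F hF' t).2 ⟨htT, h2.symm⟩)
  obtain ⟨z, hz⟩ : ∃ z, z = w0 • (s • x 0) := ⟨_, rfl⟩
  have hzX : z ∈ XX U G x i := by
    rw [hz]
    exact hHX _ hw0H _ hsX
  have hwz : w • z = w0 • (w • (w0 • (t • x 0))) := by
    rw [hz, hsx, smul_smul, smul_smul, smul_smul w0 w, smul_smul (w0 * w) w0, ← hbraid]
  have hwzX : w • z ∈ XX U G x i := by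
    rw [hwz]
    refine hHX _ hw0H _ (hOX _ ?_)
    rw [← hwX]
    exact smul_mem_smul_set hw0y
  -- stabilisers
  have hfix : ∀ v ∈ XX U G x i, Fx (TT U G x 0) v = TT U G x 0 ⊓
      ⨅ F ∈ {F | ∃ h : F ∈ LL U G x i, (L F h).f v ≠ 0}, kap (TT U G x 0) F := by
    intro v hv
    ext g
    rw [Subgroup.mem_inf, mem_biInf]
    have h2 : g ∈ Fx (TT U G x 0) v ↔ g ∈ TT U G x 0 ∧ g • v = v := Iff.rfl
    rw [h2]
    refine and_congr_right fun hg => ?_
    rw [fix_iff hLNK hCTB U hF.act _ _ _ _ _ hC (hN.inj i hi) L g hg v hv]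
    constructor
    · rintro h3 F ⟨hF', h4⟩
      exact h3 F hF' h4
    · intro h3 F hF' h4
      exact h3 F ⟨hF', h4⟩
  have hZz : {F | ∃ h : F ∈ LL U G x i, (L F h).f z ≠ 0} = LL U G x i \ {E} := by
    ext F
    constructor
    · rintro ⟨hF', h2⟩
      refine ⟨hF', fun h3 => h2 ?_⟩
      have h3' : F = E := h3
      subst h3'
      rw [hz, h1s F hF' _ hsX, ((hk F hF' s).1 htE).2, sub_self]
    · rintro ⟨hF', h2⟩
      refine ⟨hF', ?_⟩
      rw [hz, h1s F hF' _ hsX, sub_ne_zero]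
      intro h3
      apply htF' F hF' h2
      rw [← hs]
      exact (hk F hF' s).2 ⟨hsT, h3.symm⟩
  have hFz : Fx (TT U G x 0) z = TE U G x i E := by
    rw [hfix z hzX, hZz]
    rfl
  have hFwz : Fx (TT U G x 0) (w • z) = cj w⁻¹ (TE U G x i E) := by
    rw [← hFz]
    ext g
    have h2 : g ∈ Fx (TT U G x 0) (w • z) ↔ g ∈ TT U G x 0 ∧ g • w • z = w • z := Iff.rfl
    have h3 : g ∈ cj w⁻¹ (Fx (TT U G x 0) z) ↔ w⁻¹ * g * w⁻¹⁻¹ ∈ TT U G x 0 ∧
      (w⁻¹ * g * w⁻¹⁻¹) • z = z := Iff.rfl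
    rw [h2, h3, hwTm, inv_inv, mul_smul, mul_smul, inv_smul_eq_iff]
  have hrk := rank_inter hLRK U hF.act _ _ _ _ _ hC n hN.rk (hN.rkE i hi)
    {F | ∃ h : F ∈ LL U G x i, (L F h).f (w • z) ≠ 0} (fun F h => h.1)
    ((hN.fin i hi).subset (fun F h => h.1))
  rw [← hfix _ hwzX, hFwz, (l_CNJ U w⁻¹ _ (hTE1 E hE).1).2.1, (hTE1 E hE).2.1] at hrk
  have hsub : {F | ∃ h : F ∈ LL U G x i, (L F h).f (w • z) ≠ 0} ⊆ LL U G x i := fun F h => h.1
  have hcd := Set.ncard_sdiff_add_ncard_of_subset hsub (hN.fin i hi)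
  rw [hN.card i hi] at hcd
  obtain ⟨E', hE'⟩ := Set.ncard_eq_one.1 (show (LL U G x i \
    {F | ∃ h : F ∈ LL U G x i, (L F h).f (w • z) ≠ 0}).ncard = 1 by omega)
  have hE'L : E' ∈ LL U G x i := by
    have h2 : E' ∈ LL U G x i \ {F | ∃ h : F ∈ LL U G x i, (L F h).f (w • z) ≠ 0} := by
      rw [hE']
      rfl
    exact h2.1
  refine ⟨E', hE'L, ?_⟩
  rw [← hFwz, hfix _ hwzX]
  have h2 : {F | ∃ h : F ∈ LL U G x i, (L F h).f (w • z) ≠ 0} = LL U G x i \ {E'} := by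
    rw [← hE', sdiff_sdiff_cancel_left hsub]
  rw [h2]
  rfl

end Pool.Agent.H4.S
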