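import Pool.Agent.H78.S.Targets

/-!
# Theorem S (MP_9d0bb7_lc), row GMG: matrices of the generators
-/

set_option autoImplicit false

open Set Pool.Agent.H77.BC Pool.Agent.H78.S Matrix
open scoped Pointwise

namespace Pool.Agent.H4.S

/-! ### permutations -/

/-- the transpositions of one point with the others generate -/
theorem star_ind {N : ℕ} (P : Equiv.Perm (Fin (N + 1)) → Prop) (h1 : P 1)
    (hm : ∀ σ τ, P σ → P τ → P (σ * τ)) (hs : ∀ k, k ≠ 0 → P (Equiv.swap 0 k)) : ∀ σ, P σ := by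
  intro σ
  induction σ using Equiv.Perm.swap_induction_on with
  | one => exact h1
  | swap_mul f a b hab hf =>
    refine hm _ _ ?_ hf
    by_cases ha : a = 0
    · rw [ha]
      exact hs b (fun h => hab (by rw [ha, h]))
    by_cases hb : b = 0
    · rw [hb, Equiv.swap_comm]
      exact hs a ha
    have h2 := Equiv.swap_mul_swap_mul_swap (x := b) (y := 0) (z := a) hb (Ne.symm hab)
    rw [← h2]
    refine hm _ _ (hm _ _ (hs a ha) ?_) (hs a ha)
    rw [Equiv.swap_comm]
    exact hs b hb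

/-- the transpositions `(0 1)`, `(1 2)`, `(2 k)` generate -/
theorem gen_ind {m : ℕ} (P : Equiv.Perm (Fin (m + 1 + 2)) → Prop) (h1 : P 1)
    (hm : ∀ σ τ, P σ → P τ → P (σ * τ)) (h01 : P (Equiv.swap 0 1)) (h12 : P (Equiv.swap 1 2))
    (h2 : ∀ l : Fin (m + 1), l ≠ 0 → P (Equiv.swap 2 l.succ.succ)) : ∀ σ, P σ := by
  have e01 : (0 : Fin (m + 1 + 2)) ≠ 1 := by
    intro h
    exact absurd (congrArg Fin.val h) (by simp)
  have e2 : (2 : Fin (m + 1 + 2)) = (0 : Fin (m + 1)).succ.succ := rfl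
  have e1 : (1 : Fin (m + 1 + 2)) = (0 : Fin (m + 2)).succ := rfl
  -- `(1 k)`
  have h3 : ∀ l : Fin (m + 1), P (Equiv.swap 1 l.succ.succ) := by
    intro l
    by_cases hl : l = 0
    · rw [hl]
      exact h12
    have ha : l.succ.succ ≠ (2 : Fin (m + 1 + 2)) := by
      rw [e2]
      intro h
      exact hl (Fin.succ_injective _ (Fin.succ_injective _ h))
    have hb : l.succ.succ ≠ (1 : Fin (m + 1 + 2)) := by
      rw [e1]
      intro h
      exact Fin.succ_ne_zero _ (Fin.succ_injective _ h)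
    have h4 := Equiv.swap_mul_swap_mul_swap (x := l.succ.succ) (y := (2 : Fin (m + 1 + 2)))
      (z := 1) ha hb
    rw [← h4]
    refine hm _ _ (hm _ _ ?_ ?_) ?_
    · rw [Equiv.swap_comm]
      exact h12
    · rw [Equiv.swap_comm]
      exact h2 l hl
    · rw [Equiv.swap_comm]
      exact h12
  refine star_ind P h1 hm ?_
  intro k hk
  obtain ⟨k', rfl⟩ := Fin.exists_succ_eq_of_ne_zero hk
  by_cases hk' : k' = 0
  · rw [hk']
    exact h01
  obtain ⟨l, rfl⟩ := Fin.exists_succ_eq_of_ne_zero hk'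
  have hb : l.succ.succ ≠ (1 : Fin (m + 1 + 2)) := by
    rw [e1]
    intro h
    exact Fin.succ_ne_zero _ (Fin.succ_injective _ h)
  have h4 := Equiv.swap_mul_swap_mul_swap (x := l.succ.succ) (y := (1 : Fin (m + 1 + 2)))
    (z := 0) hb (Fin.succ_ne_zero _)
  rw [← h4]
  refine hm _ _ (hm _ _ ?_ ?_) ?_
  · rw [Equiv.swap_comm]
    exact h01
  · rw [Equiv.swap_comm]
    exact h3 l
  · rw [Equiv.swap_comm]
    exact h01

/-! ### matrices -/

/-- a matrix from a linear map with an inverse -/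
theorem exists_gl {K : Type} [Field K] {k : ℕ} (f g : (Fin k → K) →ₗ[K] (Fin k → K))
    (h1 : f ∘ₗ g = LinearMap.id) (h2 : g ∘ₗ f = LinearMap.id) :
    ∃ A : GL (Fin k) K, ∀ v, (A.val : Matrix _ _ K) *ᵥ v = f v := by
  refine ⟨⟨LinearMap.toMatrix' f, LinearMap.toMatrix' g, ?_, ?_⟩, fun v => ?_⟩
  · rw [← LinearMap.toMatrix'_comp, h1, LinearMap.toMatrix'_id]
  · rw [← LinearMap.toMatrix'_comp, h2, LinearMap.toMatrix'_id]
  · exact LinearMap.toMatrix'_mulVec f v

theorem exists_perm {K : Type} [Field K] {k : ℕ} (σ : Equiv.Perm (Fin k)) :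
    ∃ A : GL (Fin k) K, (A.val : Matrix _ _ K) = σ.permMatrix K := by
  refine ⟨⟨σ.permMatrix K, σ⁻¹.permMatrix K, ?_, ?_⟩, rfl⟩
  · rw [← permMatrix_mul, inv_mul_cancel, permMatrix_one]
  · rw [← permMatrix_mul, mul_inv_cancel, permMatrix_one]

theorem exists_trans {K : Type} [Field K] {k : ℕ} (b : K) :
    ∃ A : GL (Fin (k + 1 + 1)) K, (A.val : Matrix _ _ K) = transvection 1 0 b := by
  have h10 : (1 : Fin (k + 1 + 1)) ≠ 0 := by
    intro h
    exact absurd (congrArg Fin.val h) (by simp)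
  refine ⟨⟨transvection 1 0 b, transvection 1 0 (-b), ?_, ?_⟩, rfl⟩
  · rw [transvection_mul_transvection_same _ _ h10, add_neg_cancel, transvection_zero]
  · rw [transvection_mul_transvection_same _ _ h10, neg_add_cancel, transvection_zero]

theorem hv_zero {S K : Type} [Field K] {m : ℕ} (y : S → Fin (m + 1) → K) (z : S) :
    hv y z 0 = 1 := rfl

theorem hv_succ {S K : Type} [Field K] {m : ℕ} (y : S → Fin (m + 1) → K) (z : S)
    (l : Fin (m + 1)) : hv y z l.succ = y z l := rfl

theorem pf_GMG (hGMA : T_GMA) (hHIC : T_HIC) (hHIJ : T_HIJ) (hSYM : T_SYM) : T_GMG := by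
  classical
  intro M U G S _ _ _ _ m x hF hN ω hω K _ y hC
  obtain ⟨hmul, _, hone, _⟩ := hGMA U x hF hN ω hω K y hC
  have h10 : (1 : Fin (m + 1 + 2)) ≠ 0 := by
    intro h
    exact absurd (congrArg Fin.val h) (by simp)
  have h10' : (1 : Fin (m + 1 + 1)) ≠ 0 := by
    intro h
    exact absurd (congrArg Fin.val h) (by simp)
  have hB1 : Big U univ (XX U G x 1) := (hHIC U x hF 1 h10).2.1
  have hB0 : Big U univ (Orb (TT U G x 0) (x 0)) :=
    (hHIJ U x hF 0 1 (Ne.symm h10)).2.2.2.2.2.2.2.2.1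
  -- the generators
  have hw1 : ∃ A : GL (Fin (m + 1 + 1)) K, Gm U G x y (ω (Equiv.swap 1 2)) A ∧
      (A.val : Matrix _ _ K) = (Equiv.swap (0 : Fin (m + 1 + 1)) 1).permMatrix K := by
    obtain ⟨A, hA⟩ := exists_perm (K := K) (Equiv.swap (0 : Fin (m + 1 + 1)) 1)
    refine ⟨A, ⟨Orb (TT U G x 0) (x 0), hB0, fun z hz => ?_⟩, hA⟩
    obtain ⟨hzX, hz0⟩ := (hC.x0 z).1 hz
    obtain ⟨h1, h2⟩ := hC.w1 z hz
    refine ⟨hzX, ((hC.x0 _).1 h1).1, (y z 0)⁻¹, inv_ne_zero (hz0 0), ?_⟩
    rw [hA, permMatrix_mulVec]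
    funext k
    rw [Pi.smul_apply, smul_eq_mul, Function.comp_apply]
    refine Fin.cases ?_ (fun l => ?_) k
    · rw [hv_zero, Equiv.swap_apply_left]
      change 1 = (y z 0)⁻¹ * hv y z (0 : Fin (m + 1)).succ
      rw [hv_succ, inv_mul_cancel₀ (hz0 0)]
    · rw [hv_succ, h2]
      beta_reduce
      by_cases hl : l = 0
      · rw [if_pos hl, hl]
        have h3 : Equiv.swap (0 : Fin (m + 1 + 1)) 1 (0 : Fin (m + 1)).succ = 0 :=
          Equiv.swap_apply_right _ _
        rw [h3, hv_zero, mul_one]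
      · have h3 : l.succ ≠ (1 : Fin (m + 1 + 1)) := fun h => hl (Fin.succ_injective _ h)
        rw [if_neg hl, Equiv.swap_apply_of_ne_of_ne (Fin.succ_ne_zero _) h3, hv_succ, mul_comm]
  have hw2 : ∀ l : Fin (m + 1), l ≠ 0 → ∃ A : GL (Fin (m + 1 + 1)) K,
      Gm U G x y (ω (Equiv.swap 2 l.succ.succ)) A ∧
      (A.val : Matrix _ _ K) = (Equiv.swap (1 : Fin (m + 1 + 1)) l.succ).permMatrix K := by
    intro l hl
    obtain ⟨A, hA⟩ := exists_perm (K := K) (Equiv.swap (1 : Fin (m + 1 + 1)) l.succ)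
    refine ⟨A, ⟨XX U G x 1, hB1, fun z hz => ?_⟩, hA⟩
    obtain ⟨h1, h2⟩ := hC.w2 l hl z hz
    refine ⟨hz, h1, 1, one_ne_zero, ?_⟩
    rw [hA, permMatrix_mulVec, one_smul]
    funext k
    rw [Function.comp_apply]
    refine Fin.cases ?_ (fun k' => ?_) k
    · have h3 : Equiv.swap (1 : Fin (m + 1 + 1)) l.succ 0 = 0 :=
        Equiv.swap_apply_of_ne_of_ne (Ne.symm h10') (Ne.symm (Fin.succ_ne_zero _))
      rw [h3, hv_zero, hv_zero]
    · rw [hv_succ, h2]
      have h3 : Equiv.swap (1 : Fin (m + 1 + 1)) l.succ k'.succ = (Equiv.swap 0 l k').succ :=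
        ((Fin.succ_injective (m + 1)).map_swap 0 l k').symm
      rw [h3, hv_succ]
  have hw0 : ∃ A : GL (Fin (m + 1 + 1)) K, Gm U G x y (ω (Equiv.swap 0 1)) A := by
    let f : (Fin (m + 1 + 1) → K) →ₗ[K] (Fin (m + 1 + 1) → K) :=
      { toFun := fun v => Fin.cons (v 0) (fun l => v 0 - v l.succ)
        map_add' := by
          intro u v
          funext k
          refine Fin.cases ?_ (fun l => ?_) k
          · simp
          · simp only [Fin.cons_succ, Pi.add_apply]
            ring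
        map_smul' := by
          intro c v
          funext k
          refine Fin.cases ?_ (fun l => ?_) k
          · simp
          · simp only [Fin.cons_succ, Pi.smul_apply, smul_eq_mul, RingHom.id_apply]
            ring }
    have hff : f ∘ₗ f = LinearMap.id := by
      apply LinearMap.ext
      intro v
      funext k
      refine Fin.cases ?_ (fun l => ?_) k
      · rfl
      · change v 0 - (v 0 - v l.succ) = v l.succ
        ring
    obtain ⟨A, hA⟩ := exists_gl f f hff hff
    refine ⟨A, XX U G x 1, hB1, fun z hz => ?_⟩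
    obtain ⟨h1, h2⟩ := hC.w0 z hz
    refine ⟨hz, h1, 1, one_ne_zero, ?_⟩
    rw [hA, one_smul]
    funext k
    refine Fin.cases ?_ (fun l => ?_) k
    · rfl
    · rw [hv_succ, h2]
      rfl
  refine ⟨?_, ?_, ?_, ?_⟩
  · -- the group `TT`
    intro t ht
    obtain ⟨c, hc, hct⟩ := hC.tt t ht
    let f : (Fin (m + 1 + 1) → K) →ₗ[K] (Fin (m + 1 + 1) → K) :=
      { toFun := fun v => Fin.cons (v 0) (fun l => c l * v l.succ)
        map_add' := by
          intro u v
          funext k
          refine Fin.cases ?_ (fun l => ?_) k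
          · simp
          · simp only [Fin.cons_succ, Pi.add_apply]
            ring
        map_smul' := by
          intro c v
          funext k
          refine Fin.cases ?_ (fun l => ?_) k
          · simp
          · simp only [Fin.cons_succ, Pi.smul_apply, smul_eq_mul, RingHom.id_apply]
            ring }
    let g : (Fin (m + 1 + 1) → K) →ₗ[K] (Fin (m + 1 + 1) → K) :=
      { toFun := fun v => Fin.cons (v 0) (fun l => (c l)⁻¹ * v l.succ)
        map_add' := by
          intro u v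
          funext k
          refine Fin.cases ?_ (fun l => ?_) k
          · simp
          · simp only [Fin.cons_succ, Pi.add_apply]
            ring
        map_smul' := by
          intro c v
          funext k
          refine Fin.cases ?_ (fun l => ?_) k
          · simp
          · simp only [Fin.cons_succ, Pi.smul_apply, smul_eq_mul, RingHom.id_apply]
            ring }
    have hfg : f ∘ₗ g = LinearMap.id := by
      apply LinearMap.ext
      intro v
      funext k
      refine Fin.cases ?_ (fun l => ?_) k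
      · rfl
      · change c l * ((c l)⁻¹ * v l.succ) = v l.succ
        rw [mul_inv_cancel_left₀ (hc l)]
    have hgf : g ∘ₗ f = LinearMap.id := by
      apply LinearMap.ext
      intro v
      funext k
      refine Fin.cases ?_ (fun l => ?_) k
      · rfl
      · change (c l)⁻¹ * (c l * v l.succ) = v l.succ
        rw [inv_mul_cancel_left₀ (hc l)]
    obtain ⟨A, hA⟩ := exists_gl f g hfg hgf
    refine ⟨A, XX U G x 1, hB1, fun z hz => ?_⟩
    obtain ⟨h1, h2⟩ := hct z hz
    refine ⟨hz, h1, 1, one_ne_zero, ?_⟩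
    rw [hA, one_smul]
    funext k
    refine Fin.cases ?_ (fun l => ?_) k
    · rfl
    · rw [hv_succ, h2]
      rfl
  · -- the permutations of the points
    refine gen_ind (fun σ => ∃ A, Gm U G x y (ω σ) A) ?_ ?_ hw0 ?_ ?_
    · exact ⟨1, by rw [map_one]; exact hone⟩
    · rintro σ τ ⟨A, hA⟩ ⟨B, hB⟩
      exact ⟨A * B, by rw [map_mul]; exact hmul _ _ _ _ hA hB⟩
    · obtain ⟨A, hA, _⟩ := hw1
      exact ⟨A, hA⟩
    · intro l hl
      obtain ⟨A, hA, _⟩ := hw2 l hl
      exact ⟨A, hA⟩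
  · -- permutation matrices
    have hm : ∀ σ τ : Equiv.Perm (Fin (m + 1 + 1)),
        (∃ (g : G) (A : GL (Fin (m + 1 + 1)) K), Gm U G x y g A ∧
          (A.val : Matrix _ _ K) = σ.permMatrix K) →
        (∃ (g : G) (A : GL (Fin (m + 1 + 1)) K), Gm U G x y g A ∧
          (A.val : Matrix _ _ K) = τ.permMatrix K) →
        ∃ (g : G) (A : GL (Fin (m + 1 + 1)) K), Gm U G x y g A ∧
          (A.val : Matrix _ _ K) = (σ * τ).permMatrix K := by
      rintro σ τ ⟨g, A, hA, hA'⟩ ⟨h, B, hB, hB'⟩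
      refine ⟨h * g, B * A, hmul _ _ _ _ hB hA, ?_⟩
      rw [Units.val_mul, hA', hB', permMatrix_mul]
    have h01 : ∃ (g : G) (A : GL (Fin (m + 1 + 1)) K), Gm U G x y g A ∧
        (A.val : Matrix _ _ K) = (Equiv.swap (0 : Fin (m + 1 + 1)) 1).permMatrix K := by
      obtain ⟨A, hA, hA'⟩ := hw1
      exact ⟨_, A, hA, hA'⟩
    refine star_ind (fun σ => ∃ (g : G) (A : GL (Fin (m + 1 + 1)) K), Gm U G x y g A ∧
      (A.val : Matrix _ _ K) = σ.permMatrix K) ?_ hm ?_
    · exact ⟨1, 1, hone, by rw [permMatrix_one]; rfl⟩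
    · intro k hk
      obtain ⟨l, rfl⟩ := Fin.exists_succ_eq_of_ne_zero hk
      by_cases hl : l = 0
      · rw [hl]
        exact h01
      have ha : l.succ ≠ (1 : Fin (m + 1 + 1)) := fun h => hl (Fin.succ_injective _ h)
      have h4 := Equiv.swap_mul_swap_mul_swap (x := l.succ) (y := (1 : Fin (m + 1 + 1)))
        (z := 0) ha (Fin.succ_ne_zero _)
      rw [← h4]
      refine hm _ _ (hm _ _ ?_ ?_) ?_
      · rw [Equiv.swap_comm]
        exact h01
      · rw [Equiv.swap_comm]
        obtain ⟨A, hA, hA'⟩ := hw2 l hl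
        exact ⟨_, A, hA, hA'⟩
      · rw [Equiv.swap_comm]
        exact h01
  · -- the transvection
    intro b
    obtain ⟨A, hA⟩ := exists_trans (K := K) (k := m) b
    obtain ⟨h, _, hh⟩ := hC.hh (fun _ => 1) (fun l => if l = 0 then b else 0)
      (fun _ => one_ne_zero)
    refine ⟨h, A, ⟨XX U G x 1, hB1, fun z hz => ?_⟩, hA⟩
    obtain ⟨h1, h2⟩ := hh z hz
    refine ⟨hz, h1, 1, one_ne_zero, ?_⟩
    rw [hA, one_smul, transvection, add_mulVec, one_mulVec, single_mulVec]
    funext k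
    rw [Pi.add_apply]
    refine Fin.cases ?_ (fun l => ?_) k
    · rw [hv_zero, hv_zero, Function.update_of_ne (Ne.symm h10'), Pi.zero_apply, add_zero]
    · rw [hv_succ, h2, hv_succ, hv_zero]
      beta_reduce
      by_cases hl : l = 0
      · rw [if_pos hl, hl]
        have h3 : Function.update (0 : Fin (m + 1 + 1) → K) 1 (b * 1) (0 : Fin (m + 1)).succ =
          b * 1 := Function.update_self _ _ _
        rw [h3, one_mul, mul_one]
      · have h3 : l.succ ≠ (1 : Fin (m + 1 + 1)) := fun h => hl (Fin.succ_injective _ h)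
        rw [if_neg hl, Function.update_of_ne h3, Pi.zero_apply, one_mul]

end Pool.Agent.H4.S
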