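import Pool.Agent.H78.S.Targets

/-!
# Theorem S (MP_9d0bb7_lc), row PHI: a transposition in the other coordinates
-/

set_option autoImplicit false

open Set Pool.Agent.H77.BC Pool.Agent.H78.S
open scoped Pointwise

namespace Pool.Agent.H4.S.PHI

variable {M : Type}

/-- finitely many left cosets of subgroups of infinite index do not cover -/
theorem coset_avoid {Γ : Type} [Group Γ] (D : Subgroup Γ) (c : Γ) {ι : Type} [Finite ι]
    (s : ι → Subgroup Γ) (hs : ∀ i, (s i).relIndex D = 0) : ∃ r ∈ D, ∀ i, c * r ∉ s i := by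
  classical
  cases nonempty_fintype ι
  by_contra hcon
  push Not at hcon
  have hg : ∀ i, ∃ g : D, ∀ r ∈ D, c * r ∈ s i → c * (g : Γ) ∈ s i := by
    intro i
    by_cases h : ∃ r ∈ D, c * r ∈ s i
    · obtain ⟨r, hr, hr'⟩ := h
      exact ⟨⟨r, hr⟩, fun _ _ _ => hr'⟩
    · exact ⟨1, fun r hr hr' => absurd ⟨r, hr, hr'⟩ h⟩
  choose g hg using hg
  have hcov : ⋃ i ∈ (Finset.univ : Finset ι),
      (g i) • (((s i).subgroupOf D : Subgroup D) : Set D) = Set.univ := by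
    ext r
    simp only [Finset.mem_univ, iUnion_true, mem_iUnion, mem_univ, iff_true]
    obtain ⟨i, hi⟩ := hcon r r.2
    refine ⟨i, ?_⟩
    rw [Set.mem_smul_set_iff_inv_smul_mem]
    change (((g i)⁻¹ * r : D) : Γ) ∈ s i
    have h1 : (((g i)⁻¹ * r : D) : Γ) = (c * (g i : Γ))⁻¹ * (c * (r : Γ)) := by
      push_cast
      group
    rw [h1]
    exact (s i).mul_mem ((s i).inv_mem (hg i r r.2 hi)) hi
  obtain ⟨i, _, hi⟩ := Subgroup.exists_finiteIndex_of_leftCoset_cover hcov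
  exact hi.index_ne_zero (hs i)

/-- the rank of the trivial group -/
theorem rank_bot (U : RU M) {Γ : Type} [Group Γ] [Cod M Γ] :
    U.R ((⊥ : Subgroup Γ) : Set Γ) = 0 := by
  have h1 : ((⊥ : Subgroup Γ) : Set Γ) = {1} := Subgroup.coe_bot
  rw [h1]
  exact ((l_RKA U).fin (D_singleton 1) (singleton_nonempty 1)).2 (finite_singleton 1)

/-- a product of two subgroups of a connected commutative group -/
theorem prod_full (U : RU M) {Γ : Type} [Group Γ] [Cod M Γ] [DG U Γ] (T A B : Subgroup Γ)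
    (hT : Conn U T) (hc : Com T) (hA : U.D (A : Set Γ)) (hB : U.D (B : Set Γ)) (hAT : A ≤ T)
    (hBT : B ≤ T) (hR : U.R (T : Set Γ) ≤ U.R (A : Set Γ) + U.R (B : Set Γ)) (hAB : A ⊓ B = ⊥) :
    ∀ t ∈ T, ∃ a ∈ A, ∃ b ∈ B, t = a * b := by
  let P : Subgroup Γ :=
    { carrier := {g | ∃ a ∈ A, ∃ b ∈ B, g = a * b}
      one_mem' := ⟨1, A.one_mem, 1, B.one_mem, (one_mul 1).symm⟩
      mul_mem' := by
        rintro _ _ ⟨a, ha, b, hb, rfl⟩ ⟨a', ha', b', hb', rfl⟩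
        refine ⟨a * a', A.mul_mem ha ha', b * b', B.mul_mem hb hb', ?_⟩
        have h1 := hc b (hBT hb) a' (hAT ha')
        rw [mul_assoc, ← mul_assoc b, h1]
        simp only [mul_assoc]
      inv_mem' := by
        rintro _ ⟨a, ha, b, hb, rfl⟩
        refine ⟨a⁻¹, A.inv_mem ha, b⁻¹, B.inv_mem hb, ?_⟩
        rw [mul_inv_rev]
        exact hc _ (T.inv_mem (hBT hb)) _ (T.inv_mem (hAT ha)) }
  have hPD : U.D (P : Set Γ) := by
    have h1 := DFn_image (DG.mul (U := U) (Γ := Γ)) (D_prod hA hB)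
    have h2 : (P : Set Γ) = (fun p : Γ × Γ => p.1 * p.2) '' ((A : Set Γ) ×ˢ (B : Set Γ)) := by
      ext g
      constructor
      · rintro ⟨a, ha, b, hb, rfl⟩
        exact ⟨(a, b), ⟨ha, hb⟩, rfl⟩
      · rintro ⟨⟨a, b⟩, ⟨ha, hb⟩, rfl⟩
        exact ⟨a, ha, b, hb, rfl⟩
    rw [h2]
    exact h1
  have hAP : A ≤ P := fun a ha => ⟨a, ha, 1, B.one_mem, (mul_one a).symm⟩
  have hBP : B ≤ P := fun b hb => ⟨1, A.one_mem, b, hb, (one_mul b).symm⟩
  have hPT : P ≤ T := by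
    rintro _ ⟨a, ha, b, hb, rfl⟩
    exact T.mul_mem (hAT ha) (hBT hb)
  have h3 := l_GRB U P A B hPD hA hB hAP hBP
  rw [hAB, rank_bot, add_zero] at h3
  have h4 := hT.2 P hPT hPD (le_trans hR h3)
  intro t ht
  have h5 : t ∈ P := by
    rw [h4]
    exact ht
  exact h5

/-- the multiplier as a homomorphism -/
theorem exA (hLNK : T_LNK) (hCTB : T_CTB) (U : RU M) {G S : Type} [Group G] [MulAction G S]
    [Cod M G] [Cod M S] [DG U G] [Ful U S] (hact : DFn U (fun p : G × S => p.1 • p.2))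
    (H : Subgroup G) (X : Set S) (T : Subgroup G) (o e : S) (hC : Ctx U H X T o e)
    (E : Set (S × S)) (L : LB U H X o e E) :
    ∃ A : T →* L.Kˣ, ∀ t : T, ((A t : L.Kˣ) : L.K) = L.f ((t : G) • e) := by
  obtain ⟨_, _, _, _, _, _, _, _, _, _, _, hOX, _⟩ := hCTB U hact H X T o e hC
  obtain ⟨h1, _⟩ := hLNK U hact H X T o e hC E L
  refine ⟨{ toFun := fun t => Units.mk0 (L.f ((t : G) • e)) (h1 t t.2).1
            map_one' := ?_
            map_mul' := ?_ }, fun t => rfl⟩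
  · apply Units.ext
    change L.f ((1 : G) • e) = 1
    rw [one_smul]
    exact L.line.f1
  · intro s t
    apply Units.ext
    change L.f (((s : G) * (t : G)) • e) = L.f ((s : G) • e) * L.f ((t : G) • e)
    rw [mul_smul, (h1 s s.2).2 _ (hOX ⟨t, t.2, rfl⟩)]

section frame

variable (hCOO : T_COO) (hLNK : T_LNK) (hHIC : T_HIC) (hCTB : T_CTB) (U : RU M) {G S : Type}
  [Group G] [MulAction G S] [Cod M G] [Cod M S] {n : ℕ} (x : Fin (n + 2) → S) (hF : Frm U G x)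
  (hN : Nt U G x) (i : Fin (n + 2)) (hi : i ≠ 0)

include hCOO hLNK hHIC hF hN hi

/-- elements of `TT` are determined by the multipliers -/
theorem uniq (t : G) (ht : t ∈ TT U G x 0)
    (h : ∀ F ∈ LL U G x i, t ∈ kap (TT U G x 0) F) : t = 1 := by
  have := hF.dg
  have := hF.ful
  obtain ⟨hC, _, _⟩ := hHIC U x hF i hi
  obtain ⟨L, -⟩ : ∃ L : ∀ F ∈ LL U G x i, LF U G x i F, True :=
    ⟨fun F hF => (show F ∈ Lines U _ _ _ _ from hF).some, trivial⟩
  obtain ⟨_, h2, _, _⟩ := hCOO U x hF hN i hi L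
  have h3 := (h2 (fun _ _ => 1) (fun _ _ => one_ne_zero)).unique (y₁ := t) (y₂ := 1)
    ⟨ht, fun F hF' => ((hLNK U hF.act _ _ _ _ _ hC F (L F hF')).2.2.1 t).1 (h F hF') |>.2⟩
    ⟨(TT U G x 0).one_mem, fun F hF' => by rw [one_smul]; exact (L F hF').line.f1⟩
  exact h3

/-- elements with given multipliers -/
theorem exT (F0 : Set (S × S)) (hF0 : F0 ∈ LL U G x i) (Λ : LF U G x i F0) (u : Λ.K)
    (hu : u ≠ 0) : ∃ t ∈ TT U G x 0, Λ.f (t • x 0) = u ∧
      ∀ F ∈ LL U G x i, F ≠ F0 → t ∈ kap (TT U G x 0) F := by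
  classical
  have := hF.dg
  have := hF.ful
  obtain ⟨hC, _, _⟩ := hHIC U x hF i hi
  obtain ⟨L, -⟩ : ∃ L : ∀ F ∈ LL U G x i, LF U G x i F, True :=
    ⟨fun F hF => (show F ∈ Lines U _ _ _ _ from hF).some, trivial⟩
  obtain ⟨_, h2, _, hX0⟩ := hCOO U x hF hN i hi L
  have hk : ∀ F (h : F ∈ LL U G x i) g, g ∈ kap (TT U G x 0) F ↔
      g ∈ TT U G x 0 ∧ (L F h).f (g • x 0) = 1 :=
    fun F h => (hLNK U hF.act _ _ _ _ _ hC F (L F h)).2.2.1
  obtain ⟨l1, l2, l3, _⟩ := hLNK U hF.act _ _ _ _ _ hC F0 Λ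
  obtain ⟨t1, ht1, ht1u⟩ := l2 u hu
  obtain ⟨t, ⟨ht, htu⟩, -⟩ := h2
    (fun F hF' => if F = F0 then (L F hF').f (t1 • x 0) else 1) (by
      intro F hF'
      beta_reduce
      split_ifs with h
      · exact ((hLNK U hF.act _ _ _ _ _ hC F (L F hF')).1 t1 ht1).1
      · exact one_ne_zero)
  refine ⟨t, ht, ?_, ?_⟩
  · -- `t * t1⁻¹` is in the kernel
    have h3 : (L F0 hF0).f (t • x 0) = (L F0 hF0).f (t1 • x 0) := by
      rw [htu F0 hF0, if_pos rfl]
    obtain ⟨m1, _, m3, _⟩ := hLNK U hF.act _ _ _ _ _ hC F0 (L F0 hF0)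
    have h4 : ∀ g ∈ TT U G x 0, g • x 0 ∈ XX U G x i := fun g hg => ((hX0 _).1 ⟨g, hg, rfl⟩).1
    have h5 : t * t1⁻¹ ∈ TT U G x 0 := mul_mem ht (inv_mem ht1)
    have h6 : (L F0 hF0).f (t • x 0) =
        (L F0 hF0).f ((t * t1⁻¹) • x 0) * (L F0 hF0).f (t1 • x 0) := by
      rw [← (m1 _ h5).2 _ (h4 t1 ht1), smul_smul, inv_mul_cancel_right]
    have h7 : (L F0 hF0).f ((t * t1⁻¹) • x 0) = 1 := by
      have h8 := (m1 t1 ht1).1
      rw [h3] at h6
      exact mul_right_cancel₀ h8 (by rw [one_mul]; exact h6.symm)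
    have h9 := (m3 _).2 ⟨h5, h7⟩
    have h10 := ((l3 _).1 h9).2
    have h11 : Λ.f (t • x 0) = Λ.f ((t * t1⁻¹) • x 0) * Λ.f (t1 • x 0) := by
      rw [← (l1 _ h5).2 _ (h4 t1 ht1), smul_smul, inv_mul_cancel_right]
    rw [h11, h10, one_mul, ht1u]
  · intro F hF' hne
    rw [hk F hF']
    refine ⟨ht, ?_⟩
    rw [htu F hF', if_neg hne]

/-- the generic orbit of `TT` -/
theorem mem_X0 (y : S) : y ∈ Orb (TT U G x 0) (x 0) ↔ y ∈ XX U G x i ∧
    ∀ F ∈ LL U G x i, ∀ Λ : LF U G x i F, Λ.f y ≠ 0 := by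
  have := hF.dg
  have := hF.ful
  obtain ⟨hC, _, _⟩ := hHIC U x hF i hi
  obtain ⟨L, -⟩ : ∃ L : ∀ F ∈ LL U G x i, LF U G x i F, True :=
    ⟨fun F hF => (show F ∈ Lines U _ _ _ _ from hF).some, trivial⟩
  obtain ⟨_, _, _, hX0⟩ := hCOO U x hF hN i hi L
  constructor
  · intro h
    refine ⟨((hX0 y).1 h).1, ?_⟩
    obtain ⟨t, ht, rfl⟩ := h
    intro F _ Λ
    exact ((hLNK U hF.act _ _ _ _ _ hC F Λ).1 t ht).1
  · rintro ⟨h1, h2⟩
    exact (hX0 y).2 ⟨h1, fun F hF' => h2 F hF' _⟩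

/-- the product decomposition -/
theorem mem_sup (Y : Set (Set (S × S))) (hY : Y.Finite) (hYL : Y ⊆ LL U G x i) :
    ∀ r ∈ TT U G x 0, (∀ F ∈ LL U G x i, F ∉ Y → r ∈ kap (TT U G x 0) F) →
      r ∈ ⨆ F ∈ Y, TE U G x i F := by
  have := hF.dg
  have := hF.ful
  obtain ⟨hC, _, _⟩ := hHIC U x hF i hi
  induction Y, hY using Set.Finite.induction_on with
  | empty =>
    intro r hr h
    rw [uniq hCOO hLNK hHIC U x hF hN i hi r hr fun F hF' => h F hF' (notMem_empty F)]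
    exact one_mem _
  | @insert F0 Y' hF0 _ ih =>
    intro r hr h
    have hF0L : F0 ∈ LL U G x i := hYL (mem_insert _ _)
    have hne : Nonempty (LF U G x i F0) := hF0L
    obtain ⟨Λ⟩ := hne
    obtain ⟨l1, _, l3, _⟩ := hLNK U hF.act _ _ _ _ _ hC F0 Λ
    obtain ⟨t, ht, htu, htF⟩ := exT hCOO hLNK hHIC U x hF hN i hi F0 hF0L Λ (Λ.f (r • x 0))
      (l1 r hr).1
    have h4 : ∀ g ∈ TT U G x 0, g • x 0 ∈ XX U G x i :=
      fun g hg => ((mem_X0 hCOO hLNK hHIC U x hF hN i hi _).1 ⟨g, hg, rfl⟩).1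
    have h5 : r * t⁻¹ ∈ TT U G x 0 := mul_mem hr (inv_mem ht)
    have h6 : Λ.f (r • x 0) = Λ.f ((r * t⁻¹) • x 0) * Λ.f (t • x 0) := by
      rw [← (l1 _ h5).2 _ (h4 t ht), smul_smul, inv_mul_cancel_right]
    have h7 : Λ.f ((r * t⁻¹) • x 0) = 1 := by
      have h8 := (l1 t ht).1
      rw [← htu] at h6
      exact mul_right_cancel₀ h8 (by rw [one_mul]; exact h6.symm)
    have h9 : r * t⁻¹ ∈ ⨆ F ∈ Y', TE U G x i F := by
      refine ih (fun F hF' => hYL (mem_insert_of_mem _ hF')) _ h5 ?_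
      intro F hF' hFY
      by_cases hFF : F = F0
      · rw [hFF]
        exact (l3 _).2 ⟨h5, h7⟩
      · refine mul_mem (h F hF' ?_) (inv_mem (htF F hF' hFF))
        rintro (h10 | h10)
        · exact hFF h10
        · exact hFY h10
    have h11 : t ∈ TE U G x i F0 := by
      refine Subgroup.mem_inf.2 ⟨ht, ?_⟩
      simp only [Subgroup.mem_iInf]
      rintro F ⟨hF', hFF⟩
      exact htF F hF' hFF
    have h12 : r = r * t⁻¹ * t := by group
    rw [h12]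
    refine mul_mem ?_ ?_
    · have h13 : (⨆ F ∈ Y', TE U G x i F) ≤ ⨆ F ∈ insert F0 Y', TE U G x i F :=
        biSup_mono fun F hF' => mem_insert_of_mem F0 hF'
      exact h13 h9
    · have h13 : TE U G x i F0 ≤ ⨆ F ∈ insert F0 Y', TE U G x i F :=
        le_biSup (fun F => TE U G x i F) (mem_insert F0 Y')
      exact h13 h11

/-- a section of the multiplier -/
theorem exSec (F0 : Set (S × S)) (hF0 : F0 ∈ LL U G x i) (Λ : LF U G x i F0)
    (A : TT U G x 0 →* Λ.Kˣ) (hA : ∀ t : TT U G x 0, ((A t : Λ.Kˣ) : Λ.K) = Λ.f ((t : G) • x 0)) :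
    ∃ τ : Λ.Kˣ →* TT U G x 0, (∀ u, A (τ u) = u) ∧ (∀ u, (τ u : G) ∈ TE U G x i F0) ∧
      ∀ s : TT U G x 0, (s : G) ∈ TE U G x i F0 → τ (A s) = s := by
  have := hF.dg
  have := hF.ful
  obtain ⟨hC, _, _⟩ := hHIC U x hF i hi
  obtain ⟨_, _, l3, _⟩ := hLNK U hF.act _ _ _ _ _ hC F0 Λ
  let Tj : Subgroup (TT U G x 0) := (TE U G x i F0).subgroupOf (TT U G x 0)
  have hinj : Function.Injective (A.comp Tj.subtype) := by
    rw [injective_iff_map_eq_one]
    rintro ⟨s, hs⟩ hs1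
    apply Subtype.ext
    apply Subtype.ext
    refine uniq hCOO hLNK hHIC U x hF hN i hi (s : G) s.2 fun F hF' => ?_
    by_cases hFF : F = F0
    · rw [hFF, l3]
      refine ⟨s.2, ?_⟩
      rw [← hA]
      have h1 : A s = 1 := hs1
      rw [h1, Units.val_one]
    · have h1 : (s : G) ∈ TE U G x i F0 := hs
      have h2 := (Subgroup.mem_inf.1 h1).2
      simp only [Subgroup.mem_iInf] at h2
      exact h2 F ⟨hF', hFF⟩
  have hsurj : Function.Surjective (A.comp Tj.subtype) := by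
    intro u
    obtain ⟨t, ht, htu, htF⟩ := exT hCOO hLNK hHIC U x hF hN i hi F0 hF0 Λ u u.ne_zero
    have h1 : t ∈ TE U G x i F0 := by
      refine Subgroup.mem_inf.2 ⟨ht, ?_⟩
      simp only [Subgroup.mem_iInf]
      rintro F ⟨hF', hFF⟩
      exact htF F hF' hFF
    refine ⟨⟨⟨t, ht⟩, h1⟩, ?_⟩
    apply Units.ext
    change ((A ⟨t, ht⟩ : Λ.Kˣ) : Λ.K) = u
    rw [hA]
    exact htu
  let e := MulEquiv.ofBijective (A.comp Tj.subtype) ⟨hinj, hsurj⟩
  refine ⟨Tj.subtype.comp e.symm.toMonoidHom, fun u => e.apply_symm_apply u,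
    fun u => (e.symm u).2, fun s hs => ?_⟩
  have h1 : e.symm (A s) = ⟨s, hs⟩ := by
    rw [MulEquiv.symm_apply_eq]
    rfl
  change ((e.symm (A s) : Tj) : TT U G x 0) = s
  rw [h1]

end frame

theorem relIndex_zero (U : RU M) {Γ : Type} [Group Γ] [Cod M Γ] [DG U Γ] (A B D : Subgroup Γ)
    (hB : U.D (B : Set Γ)) (hR : U.R (B : Set Γ) = 1) (hAB : B ⊓ A = ⊥) (hBD : B ≤ D) :
    A.relIndex D = 0 := by
  refine Subgroup.relIndex_eq_zero_of_le_right hBD ?_
  by_contra h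
  rw [← Subgroup.inf_relIndex_right, inf_comm, hAB] at h
  have hbot : U.D ((⊥ : Subgroup Γ) : Set Γ) := by
    rw [Subgroup.coe_bot]
    exact D_singleton 1
  have h1 := (l_GRA U B ⊥ hB hbot bot_le).1 h
  rw [rank_bot, hR] at h1
  omega

theorem pf_PHI (hCOO : T_COO) (hTEK : T_TEK) (hTIJ : T_TIJ) (hLNK : T_LNK) (hCJH : T_CJH)
    (hHIC : T_HIC) (hCTB : T_CTB) (hIRG : T_IRG) (hBGA : T_BGA) : T_PHI := by
  classical
  intro M U G S _ _ _ _ n x hF hN ω hω E hK i j l hi hj hl hij hil hjl L L' hLw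
  have := hF.dg
  have := hF.ful
  obtain ⟨hC, _, _⟩ := hHIC U x hF i hi
  obtain ⟨hoX, _, _, _, hTD, hTconn, hTH, _, hHX, _⟩ := hCTB U hF.act _ _ _ _ _ hC
  have mEj : E i j ∈ LL U G x i := hK.mem i j hi hj hij
  have mEl : E i l ∈ LL U G x i := hK.mem i l hi hl hil
  have hEjl : E i j ≠ E i l := fun h => hjl (hK.inj i j l hi hj hl hij hil h)
  -- the two elements
  obtain ⟨w, hw⟩ : ∃ w, w = ω (Equiv.swap i j) := ⟨_, rfl⟩
  obtain ⟨w0, hw0⟩ : ∃ w0, w0 = ω (Equiv.swap 0 i) := ⟨_, rfl⟩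
  have hww : w * w = 1 := by
    rw [hw, ← map_mul, Equiv.swap_mul_self, map_one]
  have hwinv : w⁻¹ = w := inv_eq_of_mul_eq_one_left hww
  have hpm : Pm x w (Equiv.swap i j) := by
    rw [hw]
    exact hω.pm _
  have hpm0 : Pm x w0 (Equiv.swap 0 i) := by
    rw [hw0]
    exact hω.pm _
  have hs0 : Equiv.swap i j 0 = 0 := Equiv.swap_apply_of_ne_of_ne (Ne.symm hi) (Ne.symm hj)
  have hbraid : w * w0 * w = w0 * w * w0 := by
    rw [hw, hw0, ← map_mul, ← map_mul, ← map_mul, ← map_mul]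
    congr 1
    rw [Equiv.swap_mul_swap_mul_swap (Ne.symm hi) (Ne.symm hj), Equiv.swap_comm 0 i,
      Equiv.swap_comm i j, Equiv.swap_mul_swap_mul_swap (Ne.symm hij) hj, Equiv.swap_comm]
  have hw0H : w0 ∈ HH U G x 0 i := by
    rw [hw0]
    exact hω.mem 0 i (Ne.symm hi)
  obtain ⟨_, hcT, _, hcX⟩ := hCJH U x hF w (Equiv.swap i j) hpm
  have hwT : cj w⁻¹ (TT U G x 0) = TT U G x 0 := by
    rw [hcT 0, hs0]
  have hwX := hcX hs0
  have hwx0 : w • x 0 = x 0 := by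
    rw [hpm 0, hs0]
  have hw0i : w0 • x i = x 0 := by
    rw [hpm0 i, Equiv.swap_apply_right]
  have hw00 : w0 • x 0 = x i := by
    rw [hpm0 0, Equiv.swap_apply_left]
  have hcj : ∀ (H : Subgroup G) (g : G), w * g * w⁻¹ ∈ cj w⁻¹ H ↔ g ∈ H := by
    intro H g
    rw [mem_cj]
    have h5 : w⁻¹ * (w * g * w⁻¹) * w⁻¹⁻¹ = g := by group
    rw [h5]
  obtain ⟨hT1, hT2⟩ := hTIJ U x hF hN ω hω E hK
  rw [← hw] at hLw ⊢
  -- conjugation by `w`
  have hcT' : ∀ g ∈ TT U G x 0, w * g * w⁻¹ ∈ TT U G x 0 := by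
    intro g hg
    have h5 := (hcj (TT U G x 0) g).2 hg
    rw [hwT] at h5
    exact h5
  obtain ⟨cw, hcw⟩ : ∃ cw : TT U G x 0 →* TT U G x 0, ∀ t : TT U G x 0,
      ((cw t : TT U G x 0) : G) = w * t * w⁻¹ := by
    refine ⟨{ toFun := fun t => ⟨w * t * w⁻¹, hcT' t t.2⟩
              map_one' := by
                apply Subtype.ext
                change w * 1 * w⁻¹ = 1
                group
              map_mul' := by
                intro s t
                apply Subtype.ext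
                change w * (s * t : G) * w⁻¹ = (w * s * w⁻¹) * (w * t * w⁻¹)
                group }, fun t => rfl⟩
  have hcwcw : ∀ t, cw (cw t) = t := by
    intro t
    apply Subtype.ext
    rw [hcw, hcw]
    have h5 : w * (w * (t : G) * w⁻¹) * w⁻¹ = (w * w) * t * (w * w)⁻¹ := by group
    rw [h5, hww]
    group
  have hcwx : ∀ t : TT U G x 0, w • ((t : G) • x 0) = (cw t : G) • x 0 := by
    intro t
    rw [hcw, mul_smul, mul_smul, inv_smul_eq_iff.2 hwx0.symm]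
  -- multipliers
  obtain ⟨A, hA⟩ := exA hLNK hCTB U hF.act _ _ _ _ _ hC (E i j) L
  obtain ⟨A', hA'⟩ := exA hLNK hCTB U hF.act _ _ _ _ _ hC (E i l) L'
  have hkA : ∀ t : TT U G x 0, (t : G) ∈ kap (TT U G x 0) (E i j) ↔ A t = 1 := by
    intro t
    rw [(hLNK U hF.act _ _ _ _ _ hC (E i j) L).2.2.1, ← hA, Units.val_eq_one]
    exact ⟨fun h => h.2, fun h => ⟨t.2, h⟩⟩
  have hkA' : ∀ t : TT U G x 0, (t : G) ∈ kap (TT U G x 0) (E i l) ↔ A' t = 1 := by
    intro t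
    rw [(hLNK U hF.act _ _ _ _ _ hC (E i l) L').2.2.1, ← hA', Units.val_eq_one]
    exact ⟨fun h => h.2, fun h => ⟨t.2, h⟩⟩
  obtain ⟨τ, hτ1, hτ2, hτ3⟩ := exSec hCOO hLNK hHIC U x hF hN i hi (E i j) mEj L A hA
  obtain ⟨τ', hτ'1, hτ'2, hτ'3⟩ := exSec hCOO hLNK hHIC U x hF hN i hi (E i l) mEl L' A' hA'
  obtain ⟨hTEi1, hTEi2, _, _⟩ := hTEK U x hF hN i hi
  obtain ⟨hTEj1, _, _, _⟩ := hTEK U x hF hN j hj
  obtain ⟨hTEl1, _, _, _⟩ := hTEK U x hF hN l hl
  have hA'τ : ∀ u, A' (τ u) = 1 := fun u =>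
    (hkA' _).1 (hTEi2 (E i l) mEl (E i j) mEj (Ne.symm hEjl) (hτ2 u))
  have hAτ' : ∀ u, A (τ' u) = 1 := fun u =>
    (hkA _).1 (hTEi2 (E i j) mEj (E i l) mEl hEjl (hτ'2 u))
  -- the group `D`
  have hD : ∀ r : TT U G x 0, A r = 1 → A' r = 1 → A' (cw r) = 1 := by
    intro r hr hr'
    have h1 := mem_sup hCOO hLNK hHIC U x hF hN i hi (LL U G x i \ {E i j, E i l})
      ((hN.fin i hi).subset sdiff_subset) sdiff_subset (r : G) r.2 (by
        intro F hF' hFn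
        have h2 : F = E i j ∨ F = E i l := by
          by_contra h3
          exact hFn ⟨hF', h3⟩
        rcases h2 with h2 | h2
        · rw [h2, hkA]
          exact hr
        · rw [h2, hkA']
          exact hr')
    have h2 : (⨆ F ∈ LL U G x i \ {E i j, E i l}, TE U G x i F) ≤
        cj w (kap (TT U G x 0) (E i l)) := by
      refine iSup₂_le ?_
      rintro F ⟨hF', hFn⟩
      obtain ⟨m, hm, him, rfl⟩ := hK.all i hi F hF'
      have hmj : m ≠ j := fun h => hFn (Or.inl (by rw [h]))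
      have hml : m ≠ l := fun h => hFn (Or.inr (by rw [h]; rfl))
      intro t ht
      rw [mem_cj]
      have h3 := (hT2 w _ hpm hs0 i m hi hm him).1
      rw [Equiv.swap_apply_left, Equiv.swap_apply_of_ne_of_ne (Ne.symm him) hmj,
        hT1 j m i hj hm hi (Ne.symm hmj) (Ne.symm hij) (Ne.symm him)] at h3
      have h4 : w * t * w⁻¹ ∈ TE U G x i (E i m) := by
        rw [← h3]
        exact (hcj _ _).2 ht
      refine hTEi2 (E i l) mEl (E i m) hF' ?_ h4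
      intro h5
      exact hml (hK.inj i m l hi hm hl him hil h5.symm)
    have h3 := h2 h1
    rw [mem_cj] at h3
    rw [← hkA', hcw]
    exact h3
  obtain ⟨g, hg⟩ : ∃ g : L'.Kˣ →* L'.Kˣ, g = A'.comp (cw.comp τ') := ⟨_, rfl⟩
  obtain ⟨h, hh⟩ : ∃ h : L.Kˣ →* L'.Kˣ, h = A'.comp (cw.comp τ) := ⟨_, rfl⟩
  have hform : ∀ t : TT U G x 0, A' (cw t) = g (A' t) * h (A t) := by
    intro t
    have h1 : t = τ (A t) * τ' (A' t) * ((τ (A t) * τ' (A' t))⁻¹ * t) := by group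
    have h2 : A' (cw ((τ (A t) * τ' (A' t))⁻¹ * t)) = 1 := by
      apply hD
      · rw [map_mul, map_inv, map_mul, hτ1, hAτ', mul_one, inv_mul_cancel]
      · rw [map_mul, map_inv, map_mul, hτ'1, hA'τ, one_mul, inv_mul_cancel]
    have h3 : A' (cw t) = A' (cw (τ (A t))) * A' (cw (τ' (A' t))) *
        A' (cw ((τ (A t) * τ' (A' t))⁻¹ * t)) := by
      rw [← map_mul, ← map_mul, ← map_mul, ← map_mul, ← h1]
    rw [h3, h2, mul_one, mul_comm, hg, hh]
    rfl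
  -- the formula for `w`
  have hformy : ∀ y ∈ Orb (TT U G x 0) (x 0), ∀ (u : L.Kˣ) (v : L'.Kˣ), L.f y = u → L'.f y = v →
      L'.f (w • y) = g v * h u := by
    rintro _ ⟨t, ht, rfl⟩ u v hu hv
    have h1 : A ⟨t, ht⟩ = u := Units.ext (by rw [hA]; exact hu)
    have h2 : A' ⟨t, ht⟩ = v := Units.ext (by rw [hA']; exact hv)
    have h3 := hcwx ⟨t, ht⟩
    change w • (t • x 0) = _ at h3
    rw [h3, ← hA', hform, h1, h2, Units.val_mul]
  have hAcw : ∀ t : TT U G x 0, A (cw t) = (A t)⁻¹ := by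
    intro t
    apply Units.ext
    rw [hA, ← hcwx, hLw _ ⟨t, t.2, rfl⟩, Units.val_inv_eq_inv_val, hA]
  have hX0X : ∀ y, y ∈ Orb (TT U G x 0) (x 0) → y ∈ XX U G x i :=
    fun y hy => ((mem_X0 hCOO hLNK hHIC U x hF hN i hi y).1 hy).1
  have hwO : ∀ y, y ∈ Orb (TT U G x 0) (x 0) → w • y ∈ Orb (TT U G x 0) (x 0) := by
    intro y hy
    rw [← hwX]
    exact smul_mem_smul_set hy
  have h1s : ∀ F, ∀ Λ : LF U G x i F, ∀ y ∈ XX U G x i, Λ.f (w0 • y) = 1 - Λ.f y :=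
    fun F Λ => (hLNK U hF.act _ _ _ _ _ hC F Λ).2.2.2.2.2.2.2.2 w0 hw0H hw0i hw00
  have hW0 : ∀ s : TT U G x 0, (∀ F ∈ LL U G x i, (s : G) ∉ kap (TT U G x 0) F) →
      w0 • ((s : G) • x 0) ∈ Orb (TT U G x 0) (x 0) := by
    intro s hs
    have h1 := hX0X _ ⟨s, s.2, rfl⟩
    rw [mem_X0 hCOO hLNK hHIC U x hF hN i hi]
    refine ⟨hHX _ hw0H _ h1, fun F hF' Λ => ?_⟩
    rw [h1s F Λ _ h1, sub_ne_zero]
    intro h2
    exact hs F hF' (((hLNK U hF.act _ _ _ _ _ hC F Λ).2.2.1 _).2 ⟨s.2, h2.symm⟩)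
  refine ⟨g, h, ?_, ?_, hformy, ?_⟩
  · -- `h` is onto
    intro v
    have e1 : TE U G x j (E j i) = TE U G x l (E l i) :=
      hT1 j i l hj hi hl (Ne.symm hij) hjl hil
    have e2 : kap (TT U G x 0) (E i l) = kap (TT U G x 0) (E l i) := hK.sym i l hi hl hil
    have hEji := hTEj1 (E j i) (hK.mem j i hj hi (Ne.symm hij))
    have hEli := hTEl1 (E l i) (hK.mem l i hl hi (Ne.symm hil))
    have hEil := hTEi1 (E i l) mEl
    obtain ⟨a, ha, b, hb, hab⟩ := prod_full U (TT U G x 0) (TE U G x j (E j i))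
      (kap (TT U G x 0) (E i l)) hTconn hN.com hEji.1 hEil.2.2.2.1.1 inf_le_left inf_le_left
      (by
        have h1 := hN.rkE i hi (E i l) mEl
        rw [hN.rk, hEji.2.1]
        omega)
      (by
        rw [e1, e2]
        exact hEli.2.2.2.2.1) (τ' v : G) (τ' v).2
    have haT : a ∈ TT U G x 0 := inf_le_left (a := TT U G x 0) ha
    have hbT : b ∈ TT U G x 0 := inf_le_left (a := TT U G x 0) hb
    have h1 : τ' v = ⟨a, haT⟩ * ⟨b, hbT⟩ := Subtype.ext hab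
    have h2 : A' ⟨a, haT⟩ = v := by
      have h3 : A' ⟨b, hbT⟩ = 1 := (hkA' _).1 hb
      have h4 := hτ'1 v
      rw [h1, map_mul, h3, mul_one] at h4
      exact h4
    obtain ⟨s, hs⟩ : ∃ s, s = cw ⟨a, haT⟩ := ⟨_, rfl⟩
    have h3 : cw s = ⟨a, haT⟩ := by rw [hs, hcwcw]
    have h4 : (s : G) ∈ TE U G x i (E i j) := by
      have h5 := (hT2 w _ hpm hs0 i j hi hj hij).1
      rw [Equiv.swap_apply_left, Equiv.swap_apply_right] at h5
      rw [← hcj, h5, ← hcw, h3]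
      exact ha
    refine ⟨A s, ?_⟩
    have h6 : h (A s) = A' (cw (τ (A s))) := by
      rw [hh]
      rfl
    rw [h6, hτ3 s h4, h3, h2]
  · -- `w` is an involution
    intro u
    have h1 := hform (cw (τ u))
    rw [hcwcw, hA'τ, hAcw, hτ1] at h1
    have h2 : A' (cw (τ u)) = h u := by
      rw [hh]
      rfl
    rw [h2] at h1
    exact h1.symm
  · -- the functional equation
    intro y z ww a a1 v hz hww' ha1 hv
    obtain ⟨t0, ht0⟩ : ∃ t0, t0 = τ y * τ' a := ⟨_, rfl⟩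
    have hAt0 : A t0 = y := by rw [ht0, map_mul, hτ1, hAτ', mul_one]
    have hA't0 : A' t0 = a := by rw [ht0, map_mul, hτ'1, hA'τ, one_mul]
    have hTm : ∀ m, m ≠ 0 → m ≠ i → m ≠ j → m ≠ l →
        (kap (TT U G x 0) (E i m)).relIndex
          (kap (TT U G x 0) (E i j) ⊓ kap (TT U G x 0) (E i l)) = 0 ∧
        (kap (TT U G x 0) (E j m)).relIndex
          (kap (TT U G x 0) (E i j) ⊓ kap (TT U G x 0) (E i l)) = 0 := by
      intro m hm hmi hmj hml
      have hmE : E i m ∈ LL U G x i := hK.mem i m hi hm (Ne.symm hmi)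
      have h1 := hTEi1 (E i m) hmE
      have h2 := hTEj1 (E j m) (hK.mem j m hj hm (Ne.symm hmj))
      have e1 : TE U G x j (E j m) = TE U G x i (E i m) :=
        hT1 j m i hj hm hi (Ne.symm hmj) (Ne.symm hij) hmi
      have h3 : TE U G x i (E i m) ≤ kap (TT U G x 0) (E i j) ⊓ kap (TT U G x 0) (E i l) := by
        refine le_inf (hTEi2 (E i j) mEj (E i m) hmE ?_) (hTEi2 (E i l) mEl (E i m) hmE ?_)
        · intro h4
          exact hmj (hK.inj i m j hi hm hj (Ne.symm hmi) hij h4.symm)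
        · intro h4
          exact hml (hK.inj i m l hi hm hl (Ne.symm hmi) hil h4.symm)
      refine ⟨relIndex_zero U _ (TE U G x i (E i m)) _ h1.1 h1.2.1 h1.2.2.2.2.1 h3, ?_⟩
      refine relIndex_zero U _ (TE U G x i (E i m)) _ h1.1 h1.2.1 ?_ h3
      rw [← e1]
      exact h2.2.2.2.2.1
    obtain ⟨r, hr, hrs⟩ := coset_avoid
      (kap (TT U G x 0) (E i j) ⊓ kap (TT U G x 0) (E i l)) (t0 : G)
      (ι := {m : Fin (n + 2) // m ≠ 0 ∧ m ≠ i ∧ m ≠ j ∧ m ≠ l} ⊕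
        {m : Fin (n + 2) // m ≠ 0 ∧ m ≠ i ∧ m ≠ j ∧ m ≠ l})
      (Sum.elim (fun m => kap (TT U G x 0) (E i m.1)) (fun m => kap (TT U G x 0) (E j m.1)))
      (by
        rintro (m | m)
        · exact (hTm m.1 m.2.1 m.2.2.1 m.2.2.2.1 m.2.2.2.2).1
        · exact (hTm m.1 m.2.1 m.2.2.1 m.2.2.2.1 m.2.2.2.2).2)
    have hrj := (Subgroup.mem_inf.1 hr).1
    have hrl := (Subgroup.mem_inf.1 hr).2
    have hrT : r ∈ TT U G x 0 := inf_le_left (a := TT U G x 0) hrj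
    obtain ⟨t, ht⟩ : ∃ t, t = t0 * ⟨r, hrT⟩ := ⟨_, rfl⟩
    have htG : (t : G) = t0 * r := by
      rw [ht]
      rfl
    have hAt : A t = y := by
      have h1 : A ⟨r, hrT⟩ = 1 := (hkA _).1 hrj
      rw [ht, map_mul, h1, mul_one, hAt0]
    have hA't : A' t = a := by
      have h1 : A' ⟨r, hrT⟩ = 1 := (hkA' _).1 hrl
      rw [ht, map_mul, h1, mul_one, hA't0]
    have hA'cwt : A' (cw t) = g a * h y := by rw [hform, hAt, hA't]
    have hcase : ∀ s : TT U G x 0, A s ≠ 1 → A' s ≠ 1 →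
        (∀ m, m ≠ 0 → m ≠ i → m ≠ j → m ≠ l → (s : G) ∉ kap (TT U G x 0) (E i m)) →
        ∀ F ∈ LL U G x i, (s : G) ∉ kap (TT U G x 0) F := by
      intro s h1 h2 h3 F hF' h4
      obtain ⟨m, hm, him, rfl⟩ := hK.all i hi F hF'
      by_cases hmj : m = j
      · rw [hmj] at h4
        exact h1 ((hkA s).1 h4)
      by_cases hml : m = l
      · rw [hml] at h4
        exact h2 ((hkA' s).1 h4)
      exact h3 m hm (Ne.symm him) hmj hml h4
    have hne : ∀ {K : Type} [Field K] (p q : Kˣ), (q : K) = 1 - (p : K) → (p : K) ≠ 1 := by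
      intro K _ p q h1 h2
      rw [h2, sub_self] at h1
      exact q.ne_zero h1
    have htn : ∀ F ∈ LL U G x i, (t : G) ∉ kap (TT U G x 0) F := by
      refine hcase t ?_ ?_ ?_
      · rw [hAt]
        intro h1
        exact hne y z hz (by rw [h1, Units.val_one])
      · rw [hA't]
        intro h1
        exact hne a a1 ha1 (by rw [h1, Units.val_one])
      · intro m hm hmi hmj hml
        rw [htG]
        exact hrs (Sum.inl ⟨m, hm, hmi, hmj, hml⟩)
    have hctn : ∀ F ∈ LL U G x i, (cw t : G) ∉ kap (TT U G x 0) F := by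
      refine hcase (cw t) ?_ ?_ ?_
      · rw [hAcw, hAt]
        intro h1
        exact hne y⁻¹ ww hww' (by rw [h1, Units.val_one])
      · rw [hA'cwt]
        intro h1
        refine hne (g a * h y) v ?_ (by rw [h1, Units.val_one])
        rw [Units.val_mul]
        exact hv
      · intro m hm hmi hmj hml h1
        have h2 := (hT2 w _ hpm hs0 j m hj hm (Ne.symm hmj)).2
        rw [Equiv.swap_apply_right, Equiv.swap_apply_of_ne_of_ne hmi hmj] at h2
        rw [hcw, ← h2, hcj, htG] at h1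
        exact hrs (Sum.inr ⟨m, hm, hmi, hmj, hml⟩) h1
    have ho1 := hW0 t htn
    have ho2 := hW0 (cw t) hctn
    have hXt := hX0X _ (⟨t, t.2, rfl⟩ : (t : G) • x 0 ∈ Orb (TT U G x 0) (x 0))
    have hXct := hX0X _ (⟨cw t, (cw t).2, rfl⟩ : (cw t : G) • x 0 ∈ Orb (TT U G x 0) (x 0))
    have hleft : L'.f (w • (w0 • (w • ((t : G) • x 0)))) = g v * h ww := by
      rw [hcwx]
      refine hformy _ ho2 ww v ?_ ?_
      · rw [h1s _ L _ hXct, ← hA, hAcw, hAt]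
        exact hww'.symm
      · rw [h1s _ L' _ hXct, ← hA', hA'cwt, Units.val_mul]
        exact hv.symm
    have hright : L'.f (w0 • (w • (w0 • ((t : G) • x 0)))) = 1 - g a1 * h z := by
      rw [h1s _ L' _ (hX0X _ (hwO _ ho1)), hformy _ ho1 z a1 ?_ ?_]
      · rw [h1s _ L _ hXt, ← hA, hAt]
        exact hz.symm
      · rw [h1s _ L' _ hXt, ← hA', hA't]
        exact ha1.symm
    rw [← hleft, ← hright, smul_smul, smul_smul, smul_smul w0 w, smul_smul (w0 * w) w0, hbraid]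

end Pool.Agent.H4.S.PHI
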